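import Mathlib

/-!
# Pythagorean triples with equal products (MP_98f8fa_nt): lemmas
-/

set_option autoImplicit false

namespace Pool.Agent.PTP

/-! ### Sizes -/

theorem c5_aux {a b c : ℕ} (ha : 0 < a) (hab : a ≤ b) (h : a ^ 2 + b ^ 2 = c ^ 2) :
    c ^ 5 < (a * b * c) ^ 2 := by
  have hbc : b < c := by nlinarith
  have hc : 0 < c := by omega
  rcases Nat.lt_or_ge (b + 1) c with h1 | h1
  · have h2 : 2 * c < a ^ 2 := by nlinarith
    have h3 : c ^ 2 ≤ 2 * b ^ 2 := by nlinarith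
    have h4 : 2 * c * c ^ 2 < a ^ 2 * (2 * b ^ 2) := by
      calc 2 * c * c ^ 2 < a ^ 2 * c ^ 2 := Nat.mul_lt_mul_of_pos_right h2 (by positivity)
        _ ≤ a ^ 2 * (2 * b ^ 2) := Nat.mul_le_mul_left _ h3
    have h5 : c ^ 3 < (a * b) ^ 2 := by nlinarith
    calc c ^ 5 = c ^ 3 * c ^ 2 := by ring
      _ < (a * b) ^ 2 * c ^ 2 := Nat.mul_lt_mul_of_pos_right h5 (by positivity)
      _ = (a * b * c) ^ 2 := by ring
  · have h2 : c = b + 1 := by omega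
    subst h2
    have h3 : a ^ 2 = 2 * b + 1 := by nlinarith
    have h4 : 4 ≤ b := by
      by_contra hb
      have hb' : b ≤ 3 := by omega
      have ha' : a ≤ 3 := by omega
      interval_cases b <;> interval_cases a <;> omega
    have h5 : (b + 1) ^ 3 < (2 * b + 1) * b ^ 2 := by nlinarith [mul_pos ha ha, sq_nonneg b]
    calc (b + 1) ^ 5 = (b + 1) ^ 3 * (b + 1) ^ 2 := by ring
      _ < (2 * b + 1) * b ^ 2 * (b + 1) ^ 2 := Nat.mul_lt_mul_of_pos_right h5 (by positivity)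
      _ = (a * b * (b + 1)) ^ 2 := by rw [← h3]; ring

/-- `c^5 < N^2` for the product `N` of a triple with the hypotenuse `c`. -/
theorem c5 {a b c : ℕ} (ha : 0 < a) (hb : 0 < b) (h : a ^ 2 + b ^ 2 = c ^ 2) :
    c ^ 5 < (a * b * c) ^ 2 := by
  rcases le_total a b with hab | hab
  · exact c5_aux ha hab h
  · have := c5_aux hb hab (by rw [add_comm]; exact h)
    rwa [mul_comm b a] at this

theorem five_le {a b c : ℕ} (ha : 0 < a) (hb : 0 < b) (h : a ^ 2 + b ^ 2 = c ^ 2) : 5 ≤ c := by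
  by_contra hc
  have hc' : c ≤ 4 := by omega
  have h1 : a < c := by nlinarith
  have h2 : b < c := by nlinarith
  have ha' : a ≤ 3 := by omega
  have hb' : b ≤ 3 := by omega
  interval_cases c <;> interval_cases a <;> interval_cases b <;> omega

theorem arith {q N : ℕ} (hN : 3125 < N ^ 2) (h : 32 * N ^ 6 ≤ q ^ 25) :
    3 < q ∧ 32 * N ^ 2 ≤ q ^ 10 := by
  have h1 : 3125 ^ 3 < N ^ 6 := by
    calc 3125 ^ 3 < (N ^ 2) ^ 3 := Nat.pow_lt_pow_left hN (by norm_num)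
      _ = N ^ 6 := by ring
  have h3 : 3 < q := by
    by_contra hq
    have : q ^ 25 ≤ 3 ^ 25 := Nat.pow_le_pow_left (by omega) 25
    norm_num at this h1
    omega
  refine ⟨h3, ?_⟩
  by_contra h4
  have h5 : q ^ 10 < 32 * N ^ 2 := by omega
  have h6 : (q ^ 10) ^ 3 < (32 * N ^ 2) ^ 3 := Nat.pow_lt_pow_left h5 (by norm_num)
  have h7 : 4 ^ 5 * q ^ 25 ≤ q ^ 5 * q ^ 25 :=
    Nat.mul_le_mul_right _ (Nat.pow_le_pow_left (by omega) 5)
  have h8 : (q ^ 10) ^ 3 = q ^ 5 * q ^ 25 := by ring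
  have h9 : (32 * N ^ 2) ^ 3 = 1024 * (32 * N ^ 6) := by ring
  rw [h8, h9] at h6
  omega

/-! ### The prime divides the hypotenuse -/

theorem leg {a b c q k : ℕ} (hq : q.Prime) (hq2 : q ≠ 2) (hb : 0 < b)
    (h : a ^ 2 + b ^ 2 = c ^ 2) (hqb : q ^ k ∣ b) (hqc : ¬ q ∣ c) : (q ^ k) ^ 2 < 2 * c := by
  have hac : a < c := by nlinarith
  obtain ⟨d, rfl⟩ : ∃ d, c = a + d := ⟨c - a, by omega⟩
  have hd : 0 < d := by omega
  have h1 : d * (2 * a + d) = b ^ 2 := by nlinarith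
  have h2 : (q ^ k) ^ 2 ∣ d * (2 * a + d) := by
    rw [h1]
    exact pow_dvd_pow_of_dvd hqb 2
  by_cases h3 : q ∣ d
  · have h4 : ¬ q ∣ 2 * a + d := by
      intro h5
      have h6 : q ∣ 2 * (a + d) := by
        have := dvd_add h5 h3
        have e : 2 * a + d + d = 2 * (a + d) := by ring
        rwa [e] at this
      rcases (Nat.Prime.dvd_mul hq).1 h6 with h7 | h7
      · exact hq2 ((Nat.prime_dvd_prime_iff_eq hq Nat.prime_two).1 h7)
      · exact hqc h7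
    have h5 : Nat.Coprime ((q ^ k) ^ 2) (2 * a + d) :=
      Nat.Coprime.pow_left 2 (Nat.Coprime.pow_left k ((Nat.Prime.coprime_iff_not_dvd hq).2 h4))
    have h6 := Nat.le_of_dvd hd (h5.dvd_of_dvd_mul_right h2)
    omega
  · have h5 : Nat.Coprime ((q ^ k) ^ 2) d :=
      Nat.Coprime.pow_left 2 (Nat.Coprime.pow_left k ((Nat.Prime.coprime_iff_not_dvd hq).2 h3))
    have h6 := Nat.le_of_dvd (by omega) (h5.dvd_of_dvd_mul_left h2)
    omega

theorem not_dvd {a b c q : ℕ} (hq : q.Prime) (h : a ^ 2 + b ^ 2 = c ^ 2) (hqc : q ∣ c)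
    (hab : ¬ (q ∣ a ∧ q ∣ b)) : ¬ q ∣ a ∧ ¬ q ∣ b := by
  have h1 : q ∣ c ^ 2 := dvd_pow hqc (by norm_num)
  constructor
  · intro h2
    refine hab ⟨h2, ?_⟩
    have h3 : q ∣ a ^ 2 := dvd_pow h2 (by norm_num)
    rw [← h] at h1
    exact hq.dvd_of_dvd_pow ((Nat.dvd_add_right h3).1 h1)
  · intro h2
    refine hab ⟨?_, h2⟩
    have h3 : q ∣ b ^ 2 := dvd_pow h2 (by norm_num)
    rw [← h] at h1
    exact hq.dvd_of_dvd_pow ((Nat.dvd_add_left h3).1 h1)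

theorem hyp {a b c q k : ℕ} (hq : q.Prime) (hq2 : q ≠ 2) (ha : 0 < a) (hb : 0 < b)
    (h : a ^ 2 + b ^ 2 = c ^ 2) (hqN : q ^ k ∣ a * b * c) (hqab : ¬ (q ∣ a ∧ q ∣ b))
    (hN : 32 * (a * b * c) ^ 2 ≤ (q ^ k) ^ 10) : q ^ k ∣ c := by
  have cop : ∀ x : ℕ, ¬ q ∣ x → Nat.Coprime (q ^ k) x := fun x hx =>
    Nat.Coprime.pow_left k ((Nat.Prime.coprime_iff_not_dvd hq).2 hx)
  by_cases hqc : q ∣ c
  · obtain ⟨h1, h2⟩ := not_dvd hq h hqc hqab
    exact ((cop a h1).mul_right (cop b h2)).dvd_of_dvd_mul_left hqN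
  · exfalso
    have h0 : q ^ k ∣ a * b := (cop c hqc).dvd_of_dvd_mul_right hqN
    have h1 : (q ^ k) ^ 2 < 2 * c := by
      by_cases h2 : q ∣ b
      · have h3 : ¬ q ∣ a := fun h4 => hqab ⟨h4, h2⟩
        exact leg hq hq2 hb h ((cop a h3).dvd_of_dvd_mul_left h0) hqc
      · exact leg hq hq2 ha (by rw [add_comm]; exact h) ((cop b h2).dvd_of_dvd_mul_right h0) hqc
    have h2 := c5 ha hb h
    have h3 : ((q ^ k) ^ 2) ^ 5 < (2 * c) ^ 5 := Nat.pow_lt_pow_left h1 (by norm_num)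
    have h4 : ((q ^ k) ^ 2) ^ 5 = (q ^ k) ^ 10 := by ring
    have h5 : (2 * c) ^ 5 = 32 * c ^ 5 := by ring
    rw [h4, h5] at h3
    omega

/-! ### The gap principle -/

theorem gap0 {A B S T : ℤ} (hAB : IsCoprime A B) (hA : A ≠ 0) (h : A * T + B * S = 0) :
    (S = 0 ∧ T = 0) ∨ A ^ 2 + B ^ 2 ≤ S ^ 2 + T ^ 2 := by
  have h1 : A ∣ B * S := ⟨-T, by linear_combination h⟩
  obtain ⟨s, hs⟩ := hAB.dvd_of_dvd_mul_left h1
  have h2 : T = -(B * s) := by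
    have : A * (T + B * s) = 0 := by
      rw [hs] at h
      linear_combination h
    rcases mul_eq_zero.1 this with h3 | h3
    · exact absurd h3 hA
    · linarith
  by_cases h3 : s = 0
  · left
    rw [h3] at hs h2
    simp at hs h2
    exact ⟨hs, h2⟩
  · right
    have h4 : 1 ≤ s ^ 2 := by
      have : 0 < s ^ 2 := by positivity
      omega
    have h5 : S ^ 2 + T ^ 2 = s ^ 2 * (A ^ 2 + B ^ 2) := by
      rw [hs, h2]
      ring
    rw [h5]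
    nlinarith [sq_nonneg A, sq_nonneg B]

theorem gap1 {x y x' y' m m' : ℤ} (hm : 0 < m) (hm' : 0 < m') (h : x ^ 2 + y ^ 2 = (m ^ 2) ^ 2)
    (h' : x' ^ 2 + y' ^ 2 = (m' ^ 2) ^ 2) :
    (m * x - m' * x') ^ 2 + (m * y - m' * y') ^ 2 ≤ (m ^ 3 + m' ^ 3) ^ 2 := by
  have h1 : (x * x' + y * y') ^ 2 ≤ (m ^ 2 * m' ^ 2) ^ 2 := by
    have e : (x * x' + y * y') ^ 2 + (x * y' - y * x') ^ 2 = (m ^ 2 * m' ^ 2) ^ 2 := by
      linear_combination (x' ^ 2 + y' ^ 2) * h + (m ^ 2) ^ 2 * h'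
    nlinarith [sq_nonneg (x * y' - y * x')]
  have h2 : -(m ^ 2 * m' ^ 2) ≤ x * x' + y * y' := by
    have := abs_le_of_sq_le_sq' h1 (by positivity)
    exact this.1
  have h3 : 0 < m * m' := mul_pos hm hm'
  have h4 : 0 ≤ 2 * (m * m') * (x * x' + y * y' + m ^ 2 * m' ^ 2) := by
    apply mul_nonneg (by positivity)
    linarith
  nlinarith [h4, h, h']

theorem copr {u v : ℤ} (huv : IsCoprime u v) (hodd : ¬ (2 : ℤ) ∣ u ^ 2 + v ^ 2) :
    IsCoprime (u ^ 2 - v ^ 2) (2 * (u * v)) := by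
  have h1 : IsCoprime (u ^ 2 - v ^ 2) u := by
    have : IsCoprime (v ^ 2) u := huv.symm.pow_left
    have h2 : IsCoprime (-(v ^ 2)) u := this.neg_left
    have h3 := h2.add_mul_left_left u
    have e : -(v ^ 2) + u * u = u ^ 2 - v ^ 2 := by ring
    rwa [e] at h3
  have h2 : IsCoprime (u ^ 2 - v ^ 2) v := by
    have : IsCoprime (u ^ 2) v := huv.pow_left
    have h3 := this.add_mul_left_left (-v)
    have e : u ^ 2 + v * -v = u ^ 2 - v ^ 2 := by ring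
    rwa [e] at h3
  have h3 : IsCoprime (u ^ 2 - v ^ 2) 2 := by
    rw [isCoprime_comm, Prime.coprime_iff_not_dvd Int.prime_two]
    intro h
    apply hodd
    have : (2 : ℤ) ∣ (u ^ 2 - v ^ 2) + 2 * v ^ 2 := dvd_add h (dvd_mul_right _ _)
    have e : (u ^ 2 - v ^ 2) + 2 * v ^ 2 = u ^ 2 + v ^ 2 := by ring
    rwa [e] at this
  exact h3.mul_right (h1.mul_right h2)

/-- Two triples which are divisible by the same square of a Gaussian integer. -/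
theorem gap {u v e f e' f' a b c a' b' c' : ℤ} (huv : IsCoprime u v)
    (hodd : ¬ (2 : ℤ) ∣ u ^ 2 + v ^ 2) (ha0 : 0 < a) (hb0 : 0 < b) (hc0 : 0 < c) (ha0' : 0 < a')
    (hb0' : 0 < b') (hc0' : 0 < c') (ha : a = (u ^ 2 - v ^ 2) * e - 2 * (u * v) * f)
    (hb : b = (u ^ 2 - v ^ 2) * f + 2 * (u * v) * e)
    (ha' : a' = (u ^ 2 - v ^ 2) * e' - 2 * (u * v) * f')
    (hb' : b' = (u ^ 2 - v ^ 2) * f' + 2 * (u * v) * e') (hc : a ^ 2 + b ^ 2 = c ^ 2)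
    (hc' : a' ^ 2 + b' ^ 2 = c' ^ 2) (h : a * b * c = a' * b' * c') :
    (a = a' ∧ b = b' ∧ c = c') ∨ (u ^ 2 + v ^ 2) ^ 5 ≤ c ^ 3 + c' ^ 3 := by
  obtain ⟨K, hK⟩ : ∃ K : ℤ, K = u ^ 2 + v ^ 2 := ⟨_, rfl⟩
  obtain ⟨U, hU⟩ : ∃ U : ℤ, U = u ^ 2 - v ^ 2 := ⟨_, rfl⟩
  obtain ⟨V, hV⟩ : ∃ V : ℤ, V = 2 * (u * v) := ⟨_, rfl⟩
  have hUV : IsCoprime U V := by
    rw [hU, hV]
    exact copr huv hodd
  have hUVK : U ^ 2 + V ^ 2 = K ^ 2 := by
    rw [hU, hV, hK]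
    ring
  have hK2 : ¬ (2 : ℤ) ∣ K ^ 2 := by
    intro h2
    have := Int.prime_two.dvd_of_dvd_pow h2
    rw [hK] at this
    exact hodd this
  have hAB : IsCoprime (U ^ 2 - V ^ 2) (2 * (U * V)) := copr hUV (by rw [hUVK]; exact hK2)
  have hA0 : U ^ 2 - V ^ 2 ≠ 0 := by
    intro h0
    apply hK2
    rw [← hUVK]
    exact ⟨V ^ 2, by linarith⟩
  have hK0 : 0 < K := by
    rcases lt_trichotomy K 0 with h1 | h1 | h1
    · have : 0 ≤ K := by
        rw [hK]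
        positivity
      omega
    · exfalso
      apply hK2
      rw [h1]
      exact ⟨0, by norm_num⟩
    · exact h1
  rw [← hU, ← hV] at ha hb ha' hb'
  rw [← hK]
  have h1 : c ^ 2 = K ^ 2 * (e ^ 2 + f ^ 2) := by
    rw [← hc, ha, hb, ← hUVK]
    ring
  have h1' : c' ^ 2 = K ^ 2 * (e' ^ 2 + f' ^ 2) := by
    rw [← hc', ha', hb', ← hUVK]
    ring
  obtain ⟨m, hm⟩ : K ∣ c := (Int.pow_dvd_pow_iff (by norm_num : (2 : ℕ) ≠ 0)).1 ⟨_, h1⟩
  obtain ⟨m', hm'⟩ : K ∣ c' := (Int.pow_dvd_pow_iff (by norm_num : (2 : ℕ) ≠ 0)).1 ⟨_, h1'⟩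
  have hm0 : 0 < m := by
    by_contra h0
    nlinarith
  have hm0' : 0 < m' := by
    by_contra h0
    nlinarith
  have h2 : e ^ 2 + f ^ 2 = m ^ 2 := by
    have : K ^ 2 * (e ^ 2 + f ^ 2) = K ^ 2 * m ^ 2 := by
      rw [← h1, hm]
      ring
    exact mul_left_cancel₀ (by positivity) this
  have h2' : e' ^ 2 + f' ^ 2 = m' ^ 2 := by
    have : K ^ 2 * (e' ^ 2 + f' ^ 2) = K ^ 2 * m' ^ 2 := by
      rw [← h1', hm']
      ring
    exact mul_left_cancel₀ (by positivity) this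
  have h3 : m * (a * b) = m' * (a' * b') := by
    have : K * (m * (a * b)) = K * (m' * (a' * b')) := by
      have e1 : K * (m * (a * b)) = a * b * c := by rw [hm]; ring
      have e2 : K * (m' * (a' * b')) = a' * b' * c' := by rw [hm']; ring
      rw [e1, e2, h]
    exact mul_left_cancel₀ (by positivity) this
  have h4 : (U ^ 2 - V ^ 2) * (m * (2 * (e * f)) - m' * (2 * (e' * f'))) +
      2 * (U * V) * (m * (e ^ 2 - f ^ 2) - m' * (e' ^ 2 - f' ^ 2)) = 0 := by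
    rw [ha, hb, ha', hb'] at h3
    linear_combination 2 * h3
  have h5 : (e ^ 2 - f ^ 2) ^ 2 + (2 * (e * f)) ^ 2 = (m ^ 2) ^ 2 := by
    rw [← h2]
    ring
  have h5' : (e' ^ 2 - f' ^ 2) ^ 2 + (2 * (e' * f')) ^ 2 = (m' ^ 2) ^ 2 := by
    rw [← h2']
    ring
  rcases gap0 hAB hA0 h4 with ⟨h6, h7⟩ | h6
  · left
    have h8 : m ^ 6 = m' ^ 6 := by
      have e1 : m ^ 6 = (m * (e ^ 2 - f ^ 2)) ^ 2 + (m * (2 * (e * f))) ^ 2 := by
        linear_combination (-(m ^ 2)) * h5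
      have e2 : m' ^ 6 = (m' * (e' ^ 2 - f' ^ 2)) ^ 2 + (m' * (2 * (e' * f'))) ^ 2 := by
        linear_combination (-(m' ^ 2)) * h5'
      rw [e1, e2, sub_eq_zero.1 h6, sub_eq_zero.1 h7]
    have h9 : m = m' := (pow_left_inj₀ hm0.le hm0'.le (by norm_num)).1 h8
    have h10 : c = c' := by rw [hm, hm', h9]
    subst h9
    have h11 : e ^ 2 - f ^ 2 = e' ^ 2 - f' ^ 2 :=
      mul_left_cancel₀ hm0.ne' (sub_eq_zero.1 h6)
    have h12 : 2 * (e * f) = 2 * (e' * f') := mul_left_cancel₀ hm0.ne' (sub_eq_zero.1 h7)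
    have h13 : a ^ 2 - b ^ 2 = a' ^ 2 - b' ^ 2 := by
      rw [ha, hb, ha', hb']
      linear_combination (U ^ 2 - V ^ 2) * h11 - 2 * (U * V) * h12
    have h14 : a ^ 2 = a' ^ 2 := by
      rw [← h10] at hc'
      linarith
    have h15 : b ^ 2 = b' ^ 2 := by linarith
    exact ⟨(pow_left_inj₀ ha0.le ha0'.le (by norm_num)).1 h14,
      (pow_left_inj₀ hb0.le hb0'.le (by norm_num)).1 h15, h10⟩
  · right
    have h7 := gap1 hm0 hm0' h5 h5'
    have h8 : (K ^ 2) ^ 2 ≤ (m ^ 3 + m' ^ 3) ^ 2 := by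
      have e1 : (U ^ 2 - V ^ 2) ^ 2 + (2 * (U * V)) ^ 2 = (K ^ 2) ^ 2 := by
        rw [← hUVK]
        ring
      linarith
    have h9 : K ^ 2 ≤ m ^ 3 + m' ^ 3 := (pow_le_pow_iff_left₀ (by positivity) (by positivity)
      (by norm_num)).1 h8
    calc K ^ 5 = K ^ 3 * K ^ 2 := by ring
      _ ≤ K ^ 3 * (m ^ 3 + m' ^ 3) := mul_le_mul_of_nonneg_left h9 (by positivity)
      _ = c ^ 3 + c' ^ 3 := by rw [hm, hm']; ring

/-! ### Common Gaussian divisors -/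

/-- The square of the Gaussian integer `u + v i` divides `a + b i`. -/
theorem gauss {u v a b : ℤ} (h : (⟨u, v⟩ : GaussianInt) ^ 2 ∣ ⟨a, b⟩) : ∃ e f : ℤ,
    a = (u ^ 2 - v ^ 2) * e - 2 * (u * v) * f ∧ b = (u ^ 2 - v ^ 2) * f + 2 * (u * v) * e := by
  obtain ⟨⟨e, f⟩, h⟩ := h
  refine ⟨e, f, ?_, ?_⟩
  · have := congrArg Zsqrtd.re h
    simp [pow_two, Zsqrtd.re_mul, Zsqrtd.im_mul] at this
    rw [this]
    ring
  · have := congrArg Zsqrtd.im h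
    simp [pow_two, Zsqrtd.re_mul, Zsqrtd.im_mul] at this
    rw [this]
    ring

/-- Powers of a prime `q` which is `1` modulo `4` are sums of two coprime squares. -/
theorem rep {q : ℕ} (hq : q.Prime) (hq2 : q ≠ 2) (hq4 : q % 4 ≠ 3) (k : ℕ) :
    ∃ u v : ℤ, IsCoprime u v ∧ u ^ 2 + v ^ 2 = (q : ℤ) ^ k := by
  have hqZ : Prime (q : ℤ) := Nat.prime_iff_prime_int.1 hq
  have hq0 : (0 : ℤ) < q := by exact_mod_cast hq.pos
  have hqt : ¬ (q : ℤ) ∣ 2 := by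
    intro h
    have h1 : q ∣ 2 := by exact_mod_cast h
    exact hq2 ((Nat.prime_dvd_prime_iff_eq hq Nat.prime_two).1 h1)
  have : Fact q.Prime := ⟨hq⟩
  obtain ⟨r, s, hrs⟩ := Nat.Prime.sq_add_sq (p := q) hq4
  have hrsZ : (r : ℤ) ^ 2 + (s : ℤ) ^ 2 = (q : ℤ) := by exact_mod_cast hrs
  have hr : ¬ (q : ℤ) ∣ r := by
    intro h1
    have h2 : (q : ℤ) ∣ s := by
      apply hqZ.dvd_of_dvd_pow (n := 2)
      have : (q : ℤ) ∣ ((r : ℤ) ^ 2 + (s : ℤ) ^ 2) - (r : ℤ) ^ 2 :=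
        dvd_sub (by rw [hrsZ]) (dvd_pow h1 (by norm_num))
      have e : ((r : ℤ) ^ 2 + (s : ℤ) ^ 2) - (r : ℤ) ^ 2 = (s : ℤ) ^ 2 := by ring
      rwa [e] at this
    have h5 : (q : ℤ) ^ 2 ∣ q := by
      have := dvd_add (pow_dvd_pow_of_dvd h1 2) (pow_dvd_pow_of_dvd h2 2)
      rwa [hrsZ] at this
    have h6 := Int.le_of_dvd hq0 h5
    have h7 : (2 : ℤ) ≤ q := by exact_mod_cast hq.two_le
    nlinarith
  -- coprime or both divisible by `q`
  have dich : ∀ (x y : ℤ) (l : ℕ), x ^ 2 + y ^ 2 = (q : ℤ) ^ l → ¬ (q : ℤ) ∣ x →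
      IsCoprime x y := by
    intro x y l hxy hx
    have h1 : IsCoprime x ((q : ℤ) ^ l) :=
      (IsCoprime.pow_left (m := l) ((Prime.coprime_iff_not_dvd hqZ).2 hx)).symm
    rw [← hxy] at h1
    have h2 : IsCoprime x (y ^ 2) := by
      have := h1.add_mul_left_right (-x)
      have e : x ^ 2 + y ^ 2 + x * -x = y ^ 2 := by ring
      rwa [e] at this
    exact (IsCoprime.pow_right_iff (by norm_num)).1 h2
  induction k with
  | zero => exact ⟨1, 0, isCoprime_one_left, by norm_num⟩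
  | succ k ih =>
    obtain ⟨u, v, huv, h⟩ := ih
    by_cases hk : k = 0
    · subst hk
      exact ⟨r, s, dich r s 1 (by rw [pow_one]; exact hrsZ) hr, by rw [zero_add, pow_one]; exact hrsZ⟩
    have hu : ¬ (q : ℤ) ∣ u := by
      intro h1
      have h2 : (q : ℤ) ∣ v := by
        apply hqZ.dvd_of_dvd_pow (n := 2)
        have : (q : ℤ) ∣ (u ^ 2 + v ^ 2) - u ^ 2 :=
          dvd_sub (by rw [h]; exact dvd_pow_self _ hk) (dvd_pow h1 (by norm_num))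
        have e : (u ^ 2 + v ^ 2) - u ^ 2 = v ^ 2 := by ring
        rwa [e] at this
      exact hqZ.not_isUnit (huv.isUnit_of_dvd' h1 h2)
    by_cases h1 : (q : ℤ) ∣ u * r - v * s
    · have h2 : ¬ (q : ℤ) ∣ u * r + v * s := by
        intro h3
        have h4 : (q : ℤ) ∣ 2 * (u * r) := by
          have := dvd_add h1 h3
          have e : u * r - v * s + (u * r + v * s) = 2 * (u * r) := by ring
          rwa [e] at this
        rcases hqZ.dvd_or_dvd h4 with h5 | h5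
        · exact hqt h5
        · rcases hqZ.dvd_or_dvd h5 with h6 | h6
          · exact hu h6
          · exact hr h6
      have h3 : (u * r + v * s) ^ 2 + (u * s - v * r) ^ 2 = (q : ℤ) ^ (k + 1) := by
        rw [pow_succ (q : ℤ) k, ← h, ← hrsZ]
        ring
      exact ⟨_, _, dich _ _ _ h3 h2, h3⟩
    · have h3 : (u * r - v * s) ^ 2 + (u * s + v * r) ^ 2 = (q : ℤ) ^ (k + 1) := by
        rw [pow_succ (q : ℤ) k, ← h, ← hrsZ]
        ring
      exact ⟨_, _, dich _ _ _ h3 h1, h3⟩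

/-- A triple whose hypotenuse is divisible by the power `Q` of `q` is divisible by one of the two
squares of norm `Q ^ 2`. -/
theorem align {a b c q Q u v : ℤ} {k : ℕ} (hq : Prime q) (hqt : ¬ q ∣ 2) (hk : k ≠ 0)
    (hQ : Q = q ^ k) (huv : u ^ 2 + v ^ 2 = Q) (hcop : IsCoprime u v)
    (h : a ^ 2 + b ^ 2 = c ^ 2) (hqc : Q ∣ c) (hqa : ¬ q ∣ a) :
    (∃ e f : ℤ, a = (u ^ 2 - v ^ 2) * e - 2 * (u * v) * f ∧
      b = (u ^ 2 - v ^ 2) * f + 2 * (u * v) * e) ∨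
    (∃ e f : ℤ, a = (u ^ 2 - v ^ 2) * e + 2 * (u * v) * f ∧
      b = (u ^ 2 - v ^ 2) * f - 2 * (u * v) * e) := by
  obtain ⟨m, hm⟩ := hqc
  obtain ⟨U, hU⟩ : ∃ U : ℤ, U = u ^ 2 - v ^ 2 := ⟨_, rfl⟩
  obtain ⟨V, hV⟩ : ∃ V : ℤ, V = 2 * (u * v) := ⟨_, rfl⟩
  rw [← hU, ← hV]
  have hUV : U ^ 2 + V ^ 2 = Q ^ 2 := by
    rw [hU, hV, ← huv]
    ring
  have hqQ : q ∣ Q := by
    rw [hQ]
    exact dvd_pow_self _ hk
  have hQ0 : Q ≠ 0 := by
    rw [hQ]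
    exact pow_ne_zero _ hq.ne_zero
  have hqU : ¬ q ∣ U := by
    intro h1
    have h2 : q ∣ 2 * u ^ 2 := by
      have : q ∣ U + (u ^ 2 + v ^ 2) := dvd_add h1 (by rw [huv]; exact hqQ)
      have e : U + (u ^ 2 + v ^ 2) = 2 * u ^ 2 := by rw [hU]; ring
      rwa [e] at this
    have h3 : q ∣ u := hq.dvd_of_dvd_pow ((hq.dvd_or_dvd h2).resolve_left hqt)
    have h4 : q ∣ v := by
      apply hq.dvd_of_dvd_pow (n := 2)
      have : q ∣ (u ^ 2 + v ^ 2) - u ^ 2 :=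
        dvd_sub (by rw [huv]; exact hqQ) (dvd_pow h3 (by norm_num))
      have e : (u ^ 2 + v ^ 2) - u ^ 2 = v ^ 2 := by ring
      rwa [e] at this
    exact hq.not_isUnit (hcop.isUnit_of_dvd' h3 h4)
  have key : ∀ W : ℤ, U ^ 2 + W ^ 2 = Q ^ 2 → Q ^ 2 ∣ a * U + b * W →
      ∃ e f : ℤ, a = U * e - W * f ∧ b = U * f + W * e := by
    rintro W hW ⟨e, he⟩
    have h1 : (b * U - a * W) ^ 2 = (Q ^ 2) ^ 2 * (m ^ 2 - e ^ 2) := by
      have e1 : (b * U - a * W) ^ 2 = (a ^ 2 + b ^ 2) * (U ^ 2 + W ^ 2) - (a * U + b * W) ^ 2 := by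
        ring
      rw [e1, h, hW, he, hm]
      ring
    obtain ⟨f, hf⟩ : Q ^ 2 ∣ b * U - a * W :=
      (Int.pow_dvd_pow_iff (by norm_num : (2 : ℕ) ≠ 0)).1 ⟨_, h1⟩
    have hq0 : Q ^ 2 ≠ 0 := pow_ne_zero _ hQ0
    refine ⟨e, f, ?_, ?_⟩
    · apply mul_left_cancel₀ hq0
      linear_combination U * he - W * hf - a * hW
    · apply mul_left_cancel₀ hq0
      linear_combination U * hf + W * he - b * hW
  have h1 : Q ^ 2 ∣ (a * U + b * V) * (a * U + b * -V) := by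
    refine ⟨a ^ 2 - m ^ 2 * V ^ 2, ?_⟩
    have e1 : b ^ 2 = (Q * m) ^ 2 - a ^ 2 := by rw [← hm]; linarith
    have e2 : U ^ 2 = Q ^ 2 - V ^ 2 := by linarith
    have e3 : (a * U + b * V) * (a * U + b * -V) = a ^ 2 * U ^ 2 - b ^ 2 * V ^ 2 := by ring
    rw [e3, e1, e2]
    ring
  have cop : ∀ x : ℤ, ¬ q ∣ x → IsCoprime (Q ^ 2) x := by
    intro x hx
    rw [hQ]
    exact IsCoprime.pow_left (IsCoprime.pow_left ((Prime.coprime_iff_not_dvd hq).2 hx))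
  by_cases h2 : q ∣ a * U + b * V
  · have h3 : ¬ q ∣ a * U + b * -V := by
      intro h3
      have h4 : q ∣ 2 * (a * U) := by
        have := dvd_add h2 h3
        have e : a * U + b * V + (a * U + b * -V) = 2 * (a * U) := by ring
        rwa [e] at this
      rcases hq.dvd_or_dvd h4 with h5 | h5
      · exact hqt h5
      · rcases hq.dvd_or_dvd h5 with h6 | h6
        · exact hqa h6
        · exact hqU h6
    left
    exact key V hUV ((cop _ h3).dvd_of_dvd_mul_right h1)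
  · right
    obtain ⟨e, f, h5, h6⟩ := key (-V) (by rw [neg_sq]; exact hUV)
      ((cop _ h2).dvd_of_dvd_mul_left h1)
    exact ⟨e, f, by rw [h5]; ring, by rw [h6]; ring⟩

/-! ### The theorems -/

theorem size {c c' q N : ℕ} (h : c ^ 5 < N ^ 2) (h' : c' ^ 5 < N ^ 2)
    (hq : q ^ 5 ≤ c ^ 3 + c' ^ 3) : q ^ 25 < 32 * N ^ 6 := by
  obtain ⟨M, hM, hc, hc'⟩ : ∃ M : ℕ, M ^ 5 < N ^ 2 ∧ c ≤ M ∧ c' ≤ M := by
    rcases le_total c c' with h1 | h1
    · exact ⟨c', h', h1, le_refl _⟩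
    · exact ⟨c, h, le_refl _, h1⟩
  have h1 : q ^ 5 ≤ 2 * M ^ 3 := by
    have := Nat.pow_le_pow_left hc 3
    have := Nat.pow_le_pow_left hc' 3
    omega
  calc q ^ 25 = (q ^ 5) ^ 5 := by ring
    _ ≤ (2 * M ^ 3) ^ 5 := Nat.pow_le_pow_left h1 5
    _ = 32 * (M ^ 5) ^ 3 := by ring
    _ < 32 * (N ^ 2) ^ 3 := Nat.mul_lt_mul_of_pos_left (Nat.pow_lt_pow_left hM (by norm_num))
        (by norm_num)
    _ = 32 * N ^ 6 := by ring

theorem unique {a b c a' b' c' q k : ℕ} (ha : 0 < a) (hb : 0 < b) (ha' : 0 < a') (hb' : 0 < b')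
    (h : a ^ 2 + b ^ 2 = c ^ 2) (h' : a' ^ 2 + b' ^ 2 = c' ^ 2) (hN : a * b * c = a' * b' * c')
    (hq : q.Prime) (hq2 : q ≠ 2) (hk : k ≠ 0) (hqN : q ^ k ∣ a * b * c) (hqab : ¬ (q ∣ a ∧ q ∣ b))
    (hqab' : k = 1 ∨ ¬ (q ∣ a' ∧ q ∣ b')) (hq10 : 32 * (a * b * c) ^ 2 ≤ (q ^ k) ^ 10) :
    (c = c' ∧ (a = a' ∧ b = b' ∨ a = b' ∧ b = a')) ∨
    (q ^ k ∣ c ∧ q ^ k ∣ c' ∧ (q ^ k) ^ 5 ≤ c ^ 3 + c' ^ 3 ∧
      (q ^ k) ^ 25 < 32 * (a * b * c) ^ 6) := by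
  have h5 := c5 ha hb h
  have h5' := c5 ha' hb' h'
  have hc := five_le ha hb h
  have hc' := five_le ha' hb' h'
  have hQc : q ^ k ∣ c := hyp hq hq2 ha hb h hqN hqab hq10
  have hqc : q ∣ c := (dvd_pow_self q hk).trans hQc
  obtain ⟨hqa, hqb⟩ := not_dvd hq h hqc hqab
  have hqab' : ¬ (q ∣ a' ∧ q ∣ b') := by
    rcases hqab' with hk1 | h0
    swap
    · exact h0
    subst hk1
    rw [pow_one] at hq10
    rintro ⟨h1, h2⟩
    have hqc' : q ∣ c' := by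
      apply hq.dvd_of_dvd_pow (n := 2)
      rw [← h']
      exact dvd_add (dvd_pow h1 (by norm_num)) (dvd_pow h2 (by norm_num))
    have h3 : q ^ 3 ∣ a * b * c := by
      rw [hN]
      have := mul_dvd_mul (mul_dvd_mul h1 h2) hqc'
      have e : q * q * q = q ^ 3 := by ring
      rwa [e] at this
    have h4 : Nat.Coprime (q ^ 3) (a * b) := by
      apply Nat.Coprime.pow_left
      exact Nat.Coprime.mul_right ((Nat.Prime.coprime_iff_not_dvd hq).2 hqa)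
        ((Nat.Prime.coprime_iff_not_dvd hq).2 hqb)
    have h6 := Nat.le_of_dvd (by omega) (h4.dvd_of_dvd_mul_left h3)
    have h7 : (q ^ 3) ^ 5 ≤ c ^ 5 := Nat.pow_le_pow_left h6 5
    have h8 : (q ^ 3) ^ 5 = q ^ 5 * q ^ 10 := by ring
    have h9 : 1 * q ^ 10 ≤ q ^ 5 * q ^ 10 :=
      Nat.mul_le_mul_right _ (Nat.one_le_pow _ _ hq.pos)
    rw [h8] at h7
    omega
  have hQc' : q ^ k ∣ c' :=
    hyp hq hq2 ha' hb' h' (by rw [← hN]; exact hqN) hqab' (by rw [← hN]; exact hq10)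
  have hqc' : q ∣ c' := (dvd_pow_self q hk).trans hQc'
  obtain ⟨hqa', hqb'⟩ := not_dvd hq h' hqc' hqab'
  have : Fact q.Prime := ⟨hq⟩
  have hq4 : q % 4 ≠ 3 := by
    have h1 : ((b : ℕ) : ZMod q) ^ 2 = -(((a : ℕ) : ZMod q) ^ 2) := by
      have h2 : ((a ^ 2 + b ^ 2 : ℕ) : ZMod q) = 0 := by
        rw [h, ZMod.natCast_eq_zero_iff]
        exact dvd_pow hqc (by norm_num)
      push_cast at h2
      linear_combination h2
    refine ZMod.mod_four_ne_three_of_sq_eq_neg_sq' (x := ((b : ℕ) : ZMod q))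
      (y := ((a : ℕ) : ZMod q)) ?_ h1
    rw [Ne, ZMod.natCast_eq_zero_iff]
    exact hqa
  obtain ⟨u, v, hcop, huv⟩ := rep hq hq2 hq4 k
  have hqZ : Prime (q : ℤ) := Nat.prime_iff_prime_int.1 hq
  have hqt : ¬ (q : ℤ) ∣ 2 := by
    intro h
    have h1 : q ∣ 2 := by exact_mod_cast h
    exact hq2 ((Nat.prime_dvd_prime_iff_eq hq Nat.prime_two).1 h1)
  have hZ : (a : ℤ) ^ 2 + (b : ℤ) ^ 2 = (c : ℤ) ^ 2 := by exact_mod_cast h
  have hZ' : (a' : ℤ) ^ 2 + (b' : ℤ) ^ 2 = (c' : ℤ) ^ 2 := by exact_mod_cast h'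
  have hNZ : (a : ℤ) * b * c = a' * b' * c' := by exact_mod_cast hN
  have hodd : ∀ w : ℤ, w ^ 2 = v ^ 2 → ¬ (2 : ℤ) ∣ u ^ 2 + w ^ 2 := by
    intro w hw h1
    rw [hw, huv] at h1
    have h2 := Int.prime_two.dvd_of_dvd_pow h1
    have h3 : 2 ∣ q := by exact_mod_cast h2
    exact hq2 ((Nat.prime_dvd_prime_iff_eq Nat.prime_two hq).1 h3).symm
  have fin : ((q : ℤ) ^ k) ^ 5 ≤ (c : ℤ) ^ 3 + (c' : ℤ) ^ 3 →
      q ^ k ∣ c ∧ q ^ k ∣ c' ∧ (q ^ k) ^ 5 ≤ c ^ 3 + c' ^ 3 ∧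
        (q ^ k) ^ 25 < 32 * (a * b * c) ^ 6 := by
    intro h1
    have h2 : (q ^ k) ^ 5 ≤ c ^ 3 + c' ^ 3 := by exact_mod_cast h1
    exact ⟨hQc, hQc', h2, size h5 (by rw [hN]; exact h5') h2⟩
  -- the two alignments
  have main : ∀ w : ℤ, w ^ 2 = v ^ 2 → IsCoprime u w →
      (∃ e f : ℤ, (a : ℤ) = (u ^ 2 - w ^ 2) * e - 2 * (u * w) * f ∧
        (b : ℤ) = (u ^ 2 - w ^ 2) * f + 2 * (u * w) * e) →
      (c = c' ∧ (a = a' ∧ b = b' ∨ a = b' ∧ b = a')) ∨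
      (q ^ k ∣ c ∧ q ^ k ∣ c' ∧ (q ^ k) ^ 5 ≤ c ^ 3 + c' ^ 3 ∧
        (q ^ k) ^ 25 < 32 * (a * b * c) ^ 6) := by
    rintro w hw hcw ⟨e, f, he, hf⟩
    have huw : u ^ 2 + w ^ 2 = (q : ℤ) ^ k := by rw [hw, huv]
    rcases align hqZ hqt hk rfl huw hcw hZ' (by exact_mod_cast hQc') (by exact_mod_cast hqa') with
      ⟨e', f', he', hf'⟩ | ⟨e', f', he', hf'⟩
    · rcases gap hcw (hodd w hw) (by exact_mod_cast ha) (by exact_mod_cast hb)
        (by exact_mod_cast (by omega : 0 < c)) (by exact_mod_cast ha') (by exact_mod_cast hb')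
        (by exact_mod_cast (by omega : 0 < c')) he hf he' hf' hZ hZ' hNZ with ⟨r1, r2, r3⟩ | r
      · exact Or.inl ⟨by exact_mod_cast r3,
          Or.inl ⟨by exact_mod_cast r1, by exact_mod_cast r2⟩⟩
      · rw [huw] at r
        exact Or.inr (fin r)
    · rcases gap (a' := (b' : ℤ)) (b' := (a' : ℤ)) (c' := (c' : ℤ)) (e' := f') (f' := e') hcw
        (hodd w hw) (by exact_mod_cast ha) (by exact_mod_cast hb)
        (by exact_mod_cast (by omega : 0 < c)) (by exact_mod_cast hb') (by exact_mod_cast ha')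
        (by exact_mod_cast (by omega : 0 < c')) he hf hf' (by rw [he']) hZ
        (by rw [add_comm]; exact hZ') (by rw [hNZ]; ring) with ⟨r1, r2, r3⟩ | r
      · exact Or.inl ⟨by exact_mod_cast r3,
          Or.inr ⟨by exact_mod_cast r1, by exact_mod_cast r2⟩⟩
      · rw [huw] at r
        exact Or.inr (fin r)
  rcases align hqZ hqt hk rfl huv hcop hZ (by exact_mod_cast hQc) (by exact_mod_cast hqa) with
    ⟨e, f, he, hf⟩ | ⟨e, f, he, hf⟩
  · exact main v rfl hcop ⟨e, f, he, hf⟩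
  · refine main (-v) (by ring) hcop.neg_right ⟨e, f, ?_, ?_⟩
    · rw [he]; ring
    · rw [hf]; ring

/-- The gap principle for the common Gaussian divisors of two triples. -/
theorem gapG {a b c a' b' c' u v : ℤ} (ha : 0 < a) (hb : 0 < b) (hc : 0 < c) (ha' : 0 < a')
    (hb' : 0 < b') (hc' : 0 < c') (h : a ^ 2 + b ^ 2 = c ^ 2) (h' : a' ^ 2 + b' ^ 2 = c' ^ 2)
    (hN : a * b * c = a' * b' * c') (huv : IsCoprime u v) (hodd : Odd (u ^ 2 + v ^ 2))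
    (h1 : (⟨u, v⟩ : GaussianInt) ^ 2 ∣ ⟨a, b⟩) (h2 : (⟨u, v⟩ : GaussianInt) ^ 2 ∣ ⟨a', b'⟩) :
    (a = a' ∧ b = b' ∧ c = c') ∨ (u ^ 2 + v ^ 2) ^ 5 ≤ c ^ 3 + c' ^ 3 := by
  obtain ⟨e, f, he, hf⟩ := gauss h1
  obtain ⟨e', f', he', hf'⟩ := gauss h2
  have hodd' : ¬ (2 : ℤ) ∣ u ^ 2 + v ^ 2 := by
    rw [← even_iff_two_dvd, Int.not_even_iff_odd]
    exact hodd
  exact gap huv hodd' ha hb hc ha' hb' hc' he hf he' hf' h h' hN

/-! ### The form of the problem -/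

/-- `P(x, y) = x y (x^4 - y^4)`. -/
def P (x y : ℤ) : ℤ := x * y * (x ^ 4 - y ^ 4)

/-- The Pythagorean triple `T(x, y) = {|x^2 - y^2|, 2 |x y|, x^2 + y^2}` as a multiset. -/
def T (x y : ℤ) : Multiset ℤ := {|x ^ 2 - y ^ 2|, 2 * |x * y|, x ^ 2 + y ^ 2}

theorem P_abs (x y : ℤ) : |x ^ 2 - y ^ 2| * (2 * |x * y|) * (x ^ 2 + y ^ 2) = 2 * |P x y| := by
  have h1 : |x ^ 2 + y ^ 2| = x ^ 2 + y ^ 2 := abs_of_nonneg (by positivity)
  rw [P]
  have e : x * y * (x ^ 4 - y ^ 4) = x * y * (x ^ 2 - y ^ 2) * (x ^ 2 + y ^ 2) := by ring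
  rw [e, abs_mul, abs_mul, abs_mul, abs_mul, h1]
  ring

theorem form {x y z w : ℤ} {m q k : ℕ} (hx : x ≠ 0) (hy : y ≠ 0) (hxy : x ^ 2 ≠ y ^ 2)
    (hz : z ≠ 0) (hw : w ≠ 0) (hzw : z ^ 2 ≠ w ^ 2) (hcop : IsCoprime x y) (hq : q.Prime)
    (hmq : x ^ 2 + y ^ 2 = m * q ^ k)
    (hsize : m ^ 18 ≤ 2 * (q ^ k) ^ 7 ∨ 3 * m ^ 3 ≤ (q ^ k) ^ 2 ∧ z ^ 2 + w ^ 2 ≤ x ^ 2 + y ^ 2)
    (hk : k ≤ 1 ∨ ¬ (q : ℤ) ^ 3 ∣ x ^ 2 + y ^ 2 ∨ IsCoprime z w) (hP : |P x y| = |P z w|) :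
    T x y = T z w := by
  obtain ⟨a, ha⟩ := Int.eq_ofNat_of_zero_le (abs_nonneg (x ^ 2 - y ^ 2))
  obtain ⟨b, hb⟩ := Int.eq_ofNat_of_zero_le (abs_nonneg (2 * (x * y)))
  obtain ⟨c, hc⟩ := Int.eq_ofNat_of_zero_le (by positivity : 0 ≤ x ^ 2 + y ^ 2)
  obtain ⟨a', ha'⟩ := Int.eq_ofNat_of_zero_le (abs_nonneg (z ^ 2 - w ^ 2))
  obtain ⟨b', hb'⟩ := Int.eq_ofNat_of_zero_le (abs_nonneg (2 * (z * w)))
  obtain ⟨c', hc'⟩ := Int.eq_ofNat_of_zero_le (by positivity : 0 ≤ z ^ 2 + w ^ 2)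
  have e1 : ∀ r s : ℤ, |2 * (r * s)| = 2 * |r * s| := by
    intro r s
    rw [abs_mul]
    norm_num
  have ha0 : 0 < a := by
    have : (0 : ℤ) < a := by
      rw [← ha]
      exact abs_pos.2 (sub_ne_zero.2 hxy)
    exact_mod_cast this
  have hb0 : 0 < b := by
    have : (0 : ℤ) < b := by
      rw [← hb]
      exact abs_pos.2 (by positivity)
    exact_mod_cast this
  have ha0' : 0 < a' := by
    have : (0 : ℤ) < a' := by
      rw [← ha']
      exact abs_pos.2 (sub_ne_zero.2 hzw)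
    exact_mod_cast this
  have hb0' : 0 < b' := by
    have : (0 : ℤ) < b' := by
      rw [← hb']
      exact abs_pos.2 (by positivity)
    exact_mod_cast this
  have h : a ^ 2 + b ^ 2 = c ^ 2 := by
    have : (a : ℤ) ^ 2 + (b : ℤ) ^ 2 = (c : ℤ) ^ 2 := by
      rw [← ha, ← hb, ← hc, sq_abs, sq_abs]
      ring
    exact_mod_cast this
  have h' : a' ^ 2 + b' ^ 2 = c' ^ 2 := by
    have : (a' : ℤ) ^ 2 + (b' : ℤ) ^ 2 = (c' : ℤ) ^ 2 := by
      rw [← ha', ← hb', ← hc', sq_abs, sq_abs]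
      ring
    exact_mod_cast this
  have hN : a * b * c = a' * b' * c' := by
    have : (a : ℤ) * b * c = a' * b' * c' := by
      rw [← ha, ← hb, ← hc, ← ha', ← hb', ← hc', e1, e1, P_abs, P_abs, hP]
    exact_mod_cast this
  have hcm : c = m * q ^ k := by
    have : (c : ℤ) = m * (q : ℤ) ^ k := by rw [← hc, hmq]
    exact_mod_cast this
  have h5 := five_le ha0 hb0 h
  -- a prime `≠ 2` does not divide both legs of a triple with coprime parameters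
  have copr2 : ∀ (x y : ℤ) (a b : ℕ), |x ^ 2 - y ^ 2| = a → |2 * (x * y)| = b → IsCoprime x y →
      q ≠ 2 → ¬ (q ∣ a ∧ q ∣ b) := by
    rintro x y a b ha hb hcop hq2 ⟨h1, h2⟩
    have hqZ : Prime (q : ℤ) := Nat.prime_iff_prime_int.1 hq
    have hqt : ¬ (q : ℤ) ∣ 2 := by
      intro h
      have h1 : q ∣ 2 := by exact_mod_cast h
      exact hq2 ((Nat.prime_dvd_prime_iff_eq hq Nat.prime_two).1 h1)
    have h3 : (q : ℤ) ∣ x ^ 2 - y ^ 2 := by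
      rw [← dvd_abs, ha]
      exact_mod_cast h1
    have h4 : (q : ℤ) ∣ x * y := by
      have : (q : ℤ) ∣ 2 * (x * y) := by
        rw [← dvd_abs, hb]
        exact_mod_cast h2
      exact (hqZ.dvd_or_dvd this).resolve_left hqt
    have h6 : (q : ℤ) ∣ x ∧ (q : ℤ) ∣ y := by
      rcases hqZ.dvd_or_dvd h4 with h5 | h5
      · refine ⟨h5, hqZ.dvd_of_dvd_pow (n := 2) ?_⟩
        have := dvd_sub (dvd_pow h5 (by norm_num : (2 : ℕ) ≠ 0)) h3
        have e : x ^ 2 - (x ^ 2 - y ^ 2) = y ^ 2 := by ring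
        rwa [e] at this
      · refine ⟨hqZ.dvd_of_dvd_pow (n := 2) ?_, h5⟩
        have := dvd_add h3 (dvd_pow h5 (by norm_num : (2 : ℕ) ≠ 0))
        have e : x ^ 2 - y ^ 2 + y ^ 2 = x ^ 2 := by ring
        rwa [e] at this
    exact hqZ.not_isUnit (hcop.isUnit_of_dvd' h6.1 h6.2)
  have m1 : (m ^ 18 ≤ 256 ∨ 3 * m ^ 3 ≤ 4) → m ≤ 1 := by
    intro h1
    by_contra h9
    have h8 : 2 ^ 18 ≤ m ^ 18 := Nat.pow_le_pow_left (by omega) 18
    have h7 : 2 ^ 3 ≤ m ^ 3 := Nat.pow_le_pow_left (by omega) 3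
    norm_num at h8 h7
    omega
  have hk0 : k ≠ 0 := by
    rintro rfl
    rw [pow_zero, one_pow, one_pow] at hsize
    rw [pow_zero, mul_one] at hcm
    have := m1 (by omega)
    omega
  have hq2 : q ≠ 2 := by
    rintro rfl
    by_cases hk1 : k = 1
    · subst hk1
      rw [pow_one] at hcm hsize
      norm_num at hsize
      have := m1 (by omega)
      omega
    · have h4 : (4 : ℤ) ∣ x ^ 2 + y ^ 2 := by
        obtain ⟨l, rfl⟩ : ∃ l, k = l + 2 := ⟨k - 2, by omega⟩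
        rw [hmq]
        refine ⟨m * 2 ^ l, ?_⟩
        push_cast
        ring
      have h6 : (2 : ℤ) ∣ x ∧ (2 : ℤ) ∣ y := by
        rcases Int.even_or_odd' x with ⟨r, hr | hr⟩ <;> rcases Int.even_or_odd' y with ⟨s, hs | hs⟩
        · exact ⟨⟨r, hr⟩, ⟨s, hs⟩⟩
        · exfalso
          obtain ⟨t, ht⟩ := h4
          rw [hr, hs] at ht
          ring_nf at ht
          omega
        · exfalso
          obtain ⟨t, ht⟩ := h4
          rw [hr, hs] at ht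
          ring_nf at ht
          omega
        · exfalso
          obtain ⟨t, ht⟩ := h4
          rw [hr, hs] at ht
          ring_nf at ht
          omega
      exact Int.prime_two.not_isUnit (hcop.isUnit_of_dvd' h6.1 h6.2)
  have hqab : ¬ (q ∣ a ∧ q ∣ b) := copr2 x y a b ha hb hcop hq2
  have hqc : q ^ k ∣ c := ⟨m, by rw [hcm, mul_comm]⟩
  have hqab' : k = 1 ∨ ¬ (q ∣ a' ∧ q ∣ b') := by
    rcases hk with hk | hk | hk
    · left
      omega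
    · right
      rintro ⟨h1, h2⟩
      apply hk
      have hqc1 : q ∣ c := (dvd_pow_self q hk0).trans hqc
      obtain ⟨h3, h4⟩ := not_dvd hq h hqc1 hqab
      have hqc' : q ∣ c' := by
        apply hq.dvd_of_dvd_pow (n := 2)
        rw [← h']
        exact dvd_add (dvd_pow h1 (by norm_num)) (dvd_pow h2 (by norm_num))
      have h6 : q ^ 3 ∣ a * b * c := by
        rw [hN]
        have := mul_dvd_mul (mul_dvd_mul h1 h2) hqc'
        have e : q * q * q = q ^ 3 := by ring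
        rwa [e] at this
      have h7 : Nat.Coprime (q ^ 3) (a * b) := by
        apply Nat.Coprime.pow_left
        exact Nat.Coprime.mul_right ((Nat.Prime.coprime_iff_not_dvd hq).2 h3)
          ((Nat.Prime.coprime_iff_not_dvd hq).2 h4)
      have h8 := h7.dvd_of_dvd_mul_left h6
      rw [hc]
      exact_mod_cast h8
    · right
      exact copr2 z w a' b' ha' hb' hk hq2
  have hm0 : 0 < m := by
    rcases Nat.eq_zero_or_pos m with h1 | h1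
    · rw [h1, zero_mul] at hcm
      omega
    · exact h1
  have hNc3 : 2 * (a * b * c) ≤ c ^ 3 := by
    have : 2 * (a * b) ≤ c ^ 2 := by
      rw [← h]
      nlinarith [two_mul_le_add_sq a b]
    calc 2 * (a * b * c) = 2 * (a * b) * c := by ring
      _ ≤ c ^ 2 * c := Nat.mul_le_mul_right _ this
      _ = c ^ 3 := by ring
  have goal : c = c' ∧ (a = a' ∧ b = b' ∨ a = b' ∧ b = a') := by
    rcases hsize with hsize | ⟨hsize, hcc⟩
    · have hNc : 32 * (a * b * c) ^ 6 ≤ (q ^ k) ^ 25 := by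
        have h2 : (2 * (a * b * c)) ^ 6 ≤ (c ^ 3) ^ 6 := Nat.pow_le_pow_left hNc3 6
        have h3 : (2 * (a * b * c)) ^ 6 = 2 * (32 * (a * b * c) ^ 6) := by ring
        have h4 : (c ^ 3) ^ 6 = m ^ 18 * (q ^ k) ^ 18 := by
          rw [hcm]
          ring
        have h5 : m ^ 18 * (q ^ k) ^ 18 ≤ 2 * (q ^ k) ^ 7 * (q ^ k) ^ 18 :=
          Nat.mul_le_mul_right _ hsize
        have h6 : 2 * (q ^ k) ^ 7 * (q ^ k) ^ 18 = 2 * (q ^ k) ^ 25 := by ring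
        rw [h3, h4] at h2
        rw [h6] at h5
        omega
      have hN2 : 3125 < (a * b * c) ^ 2 := by
        have h7 := c5 ha0 hb0 h
        have : 5 ^ 5 ≤ c ^ 5 := Nat.pow_le_pow_left h5 5
        norm_num at this
        omega
      rcases unique ha0 hb0 ha0' hb0' h h' hN hq hq2 hk0 (Dvd.dvd.mul_left hqc _) hqab hqab'
        (arith hN2 hNc).2 with r | ⟨-, -, -, r⟩
      · exact r
      · omega
    · have hcc' : c' ≤ c := by
        have : (c' : ℤ) ≤ c := by rw [← hc, ← hc']; exact hcc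
        exact_mod_cast this
      have hN2 : 32 * (a * b * c) ^ 2 ≤ (q ^ k) ^ 10 := by
        have h2 : (2 * (a * b * c)) ^ 2 ≤ (c ^ 3) ^ 2 := Nat.pow_le_pow_left hNc3 2
        have h3 : 8 * (2 * (a * b * c)) ^ 2 = 32 * (a * b * c) ^ 2 := by ring
        have h4 : 9 * (c ^ 3) ^ 2 = (3 * m ^ 3) ^ 2 * (q ^ k) ^ 6 := by
          rw [hcm]
          ring
        have h5 : (3 * m ^ 3) ^ 2 * (q ^ k) ^ 6 ≤ ((q ^ k) ^ 2) ^ 2 * (q ^ k) ^ 6 :=
          Nat.mul_le_mul_right _ (Nat.pow_le_pow_left hsize 2)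
        have h6 : ((q ^ k) ^ 2) ^ 2 * (q ^ k) ^ 6 = (q ^ k) ^ 10 := by ring
        omega
      rcases unique ha0 hb0 ha0' hb0' h h' hN hq hq2 hk0 (Dvd.dvd.mul_left hqc _) hqab hqab'
        hN2 with r | ⟨-, -, r, -⟩
      · exact r
      · exfalso
        have h2 : c' ^ 3 ≤ c ^ 3 := Nat.pow_le_pow_left hcc' 3
        have hQ0 : 0 < q ^ k := Nat.pow_pos hq.pos
        have h3 : (q ^ k) ^ 2 * (q ^ k) ^ 3 ≤ 2 * m ^ 3 * (q ^ k) ^ 3 := by
          calc (q ^ k) ^ 2 * (q ^ k) ^ 3 = (q ^ k) ^ 5 := by ring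
            _ ≤ 2 * c ^ 3 := by omega
            _ = 2 * m ^ 3 * (q ^ k) ^ 3 := by rw [hcm]; ring
        have h4 : (q ^ k) ^ 2 ≤ 2 * m ^ 3 := Nat.le_of_mul_le_mul_right h3 (by positivity)
        have h6 : 0 < m ^ 3 := by positivity
        omega
  obtain ⟨r1, r2⟩ := goal
  unfold T
  rw [← e1, ← e1, ha, hb, hc, ha', hb', hc', r1]
  rcases r2 with ⟨r2, r3⟩ | ⟨r2, r3⟩
  · rw [r2, r3]
  · rw [r2, r3]
    exact Multiset.cons_swap _ _ _

end Pool.Agent.PTP
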